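import Pool.Agent.Helper873.PolG

open Topology TopologicalSpace

namespace Pool.Agent.Results.MP_a9bf58_lc.SigmaComplete

open Pool.Agent.Helper873.Pol

/-- The homeomorphism relation of Polish spaces, coded by the closed subsets of the Urysohn space
(or of any other Polish space containing a closed copy of `ℝ^ℕ`) with the Effros Borel structure,
is `Σ¹₂`-complete; in particular it is not analytic, and it is not Borel reducible to any analytic
equivalence relation on a standard Borel space. -/
theorem result :
    (∀ (U : Type) [MetricSpace U], IsUrysohn U →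
      IsSigma12Complete (HomeoRel U) ∧ HomeoNotAnalytic U) ∧
    (∀ (W : Type) [TopologicalSpace W] [PolishSpace W],
      (∃ e : (ℕ → ℝ) → W, IsClosedEmbedding e) →
        IsSigma12Complete (HomeoRel W) ∧ HomeoNotAnalytic W) := by
  refine ⟨?_, ?_⟩
  · intro U _ hU
    have := hU.separable
    have := hU.complete
    obtain ⟨e, he⟩ := hU.exists_closedEmbedding ((ℕ → ℝ) × ℝ)
    obtain ⟨e', he'⟩ := hU.exists_closedEmbedding (((ℝ × (ℕ → ℝ)) × (ℕ → ℝ)) × ℝ)
    have : SecondCountableTopology U := UniformSpace.secondCountable_of_separable U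
    exact ⟨isSigma12Complete_homeoRel U e' he', homeoNotAnalytic U e he⟩
  · rintro W _ _ ⟨e, he⟩
    obtain ⟨e', he'⟩ := exists_ambient
    exact ⟨isSigma12Complete_homeoRel W _ (he.comp he'),
      homeoNotAnalytic W _ (he.comp isClosedEmbedding_consMap)⟩

end Pool.Agent.Results.MP_a9bf58_lc.SigmaComplete
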